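import Mathlib
import Pool.Agent.V11117.Top

namespace Pool.Agent.Results.MP_7ca01f_co.UnboundedDistortion

open Finset Matrix Filter Pool.Agent.V11117

/-- The Laplacian `D - W` of a symmetric weight matrix `W`. -/
def lap {V : Type*} [Fintype V] [DecidableEq V] (W : Matrix V V ℝ) : Matrix V V ℝ :=
  Matrix.diagonal (fun u => ∑ v, W u v) - W

/-- The largest eigenvalue of a real symmetric matrix. -/
noncomputable def lambda1 {V : Type*} [Fintype V] [DecidableEq V] (A : Matrix V V ℝ) : ℝ :=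
  sSup {t : ℝ | ∃ y : V → ℝ, y ≠ 0 ∧ A *ᵥ y = t • y}

/-- `W` is the weight matrix of an edge-deleting `(1 ± ε)`-Laplacian sparsifier of `G`: it is
symmetric and nonnegative, its support (the edge set of `H`) is contained in the edge set of `G`,
at least one edge of `G` has weight zero (is absent), and the Laplacian quadratic forms
satisfy the two-sided bound. -/
structure IsEdgeDeletingSparsifier {V : Type*} [Fintype V] [DecidableEq V] (G : SimpleGraph V)
    [DecidableRel G.Adj] (ε : ℝ) (W : Matrix V V ℝ) : Prop where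
  symm : ∀ u v, W u v = W v u
  nonneg : ∀ u v, 0 ≤ W u v
  support : ∀ u v, W u v ≠ 0 → G.Adj u v
  deleted : ∃ u v, G.Adj u v ∧ W u v = 0
  lower : ∀ x : V → ℝ, (1 - ε) * (x ⬝ᵥ (lap (G.adjMatrix ℝ) *ᵥ x)) ≤ x ⬝ᵥ (lap W *ᵥ x)
  upper : ∀ x : V → ℝ, x ⬝ᵥ (lap W *ᵥ x) ≤ (1 + ε) * (x ⬝ᵥ (lap (G.adjMatrix ℝ) *ᵥ x))

/-- The windmill: cliques on `{i} × κ` for `i : ι`, and a hub `none` joined to everything. -/
def windmill (ι κ : Type) : SimpleGraph (Option (ι × κ)) where
  Adj a b := match a, b with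
    | some x, some y => x.1 = y.1 ∧ x.2 ≠ y.2
    | none, some _ => True
    | some _, none => True
    | none, none => False
  symm := ⟨fun a b h => by
    rcases a with _ | a <;> rcases b with _ | b <;> simp_all [eq_comm]⟩
  loopless := ⟨fun a h => by
    rcases a with _ | a <;> simp_all⟩

instance (ι κ : Type) [DecidableEq ι] [DecidableEq κ] : DecidableRel (windmill ι κ).Adj :=
  fun a b =>
  match a, b with
  | some x, some y => inferInstanceAs (Decidable (x.1 = y.1 ∧ x.2 ≠ y.2))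
  | none, some _ => isTrue trivial
  | some _, none => isTrue trivial
  | none, none => isFalse id

section
variable {ι κ : Type} [Fintype ι] [DecidableEq ι] [Fintype κ] [DecidableEq κ]

/-- windmill weights, with hub weight `b j` -/
def wm (ι κ : Type) [DecidableEq ι] [DecidableEq κ] (b : κ → ℝ) :
    Matrix (Option (ι × κ)) (Option (ι × κ)) ℝ :=
  Matrix.of fun u v => match u, v with
    | some x, some y => if x.1 = y.1 ∧ x.2 ≠ y.2 then 1 else 0
    | none, some y => b y.2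
    | some x, none => b x.2
    | none, none => 0

lemma wm_symm (b : κ → ℝ) : ∀ u v, wm ι κ b u v = wm ι κ b v u := by
  intro u v
  rcases u with _ | u <;> rcases v with _ | v <;> simp [wm, eq_comm]

lemma wm_one : (windmill ι κ).adjMatrix ℝ = wm ι κ (fun _ => 1) := by
  ext u v
  rw [SimpleGraph.adjMatrix_apply]
  rcases u with _ | u <;> rcases v with _ | v <;> simp [wm, windmill]

/-- The quadratic form. -/
lemma quadform (b : κ → ℝ) (x : Option (ι × κ) → ℝ) :
    x ⬝ᵥ (wm ι κ b *ᵥ x) = 2 * (x none * ∑ i, ∑ j, b j * x (some (i, j)))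
      + ∑ i, ((∑ j, x (some (i, j))) ^ 2 - ∑ j, x (some (i, j)) ^ 2) := by
  have h : x ⬝ᵥ (wm ι κ b *ᵥ x) = ∑ u, ∑ v, x u * (wm ι κ b u v * x v) := by
    rw [dotProduct]
    refine Finset.sum_congr rfl fun u _ => ?_
    rw [Matrix.mulVec, dotProduct, Finset.mul_sum]
  rw [h, Fintype.sum_option]
  simp only [Fintype.sum_option, Fintype.sum_prod_type]
  have h1 : ∀ (i : ι) (j : κ), ∑ i', ∑ j', x (some (i, j)) *
      (wm ι κ b (some (i, j)) (some (i', j')) * x (some (i', j')))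
      = x (some (i, j)) * (∑ j', x (some (i, j'))) - x (some (i, j)) ^ 2 := by
    intro i j
    rw [Finset.sum_eq_single i]
    · have : ∀ j', x (some (i, j)) * (wm ι κ b (some (i, j)) (some (i, j')) * x (some (i, j')))
          = x (some (i, j)) * x (some (i, j'))
            - (if j' = j then x (some (i, j)) * x (some (i, j')) else 0) := by
        intro j'
        by_cases hj : j' = j
        · subst hj
          simp [wm]
        · simp [wm, hj, Ne.symm hj]
      simp_rw [this]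
      rw [Finset.sum_sub_distrib, ← Finset.mul_sum, Finset.sum_ite_eq', if_pos (mem_univ _)]
      ring
    · intro i' _ hi
      apply Finset.sum_eq_zero
      intro j' _
      simp [wm, Ne.symm hi]
    · simp
  simp_rw [h1]
  have e1 : ∑ i, ∑ j, x none * (wm ι κ b none (some (i, j)) * x (some (i, j)))
      = x none * ∑ i, ∑ j, b j * x (some (i, j)) := by
    rw [Finset.mul_sum]
    refine Finset.sum_congr rfl fun i _ => ?_
    rw [Finset.mul_sum]
    exact Finset.sum_congr rfl fun j _ => by simp [wm]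
  have e2 : ∑ i, ∑ j, (x (some (i, j)) * (wm ι κ b (some (i, j)) none * x none) +
      (x (some (i, j)) * (∑ j', x (some (i, j'))) - x (some (i, j)) ^ 2))
      = x none * ∑ i, ∑ j, b j * x (some (i, j))
        + ∑ i, ((∑ j, x (some (i, j))) ^ 2 - ∑ j, x (some (i, j)) ^ 2) := by
    rw [Finset.mul_sum, ← Finset.sum_add_distrib]
    refine Finset.sum_congr rfl fun i _ => ?_
    have a1 : ∑ j, x (some (i, j)) * (wm ι κ b (some (i, j)) none * x none)
        = x none * ∑ j, b j * x (some (i, j)) := by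
      rw [Finset.mul_sum]
      refine Finset.sum_congr rfl fun j _ => ?_
      have : wm ι κ b (some (i, j)) none = b j := rfl
      rw [this]
      ring
    have a2 : ∑ j, x (some (i, j)) * (∑ j', x (some (i, j')))
        = (∑ j, x (some (i, j))) ^ 2 := by
      rw [← Finset.sum_mul]
      ring
    rw [Finset.sum_add_distrib, Finset.sum_sub_distrib, a1, a2]
  rw [e1, e2]
  simp [wm]
  ring

/-- The Laplacian quadratic form. -/
lemma lapform (b : κ → ℝ) (x : Option (ι × κ) → ℝ) :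
    x ⬝ᵥ (lap (wm ι κ b) *ᵥ x) = ∑ i, ((∑ j, b j * (x none - x (some (i, j))) ^ 2)
      + 1 / 2 * ∑ j, ∑ j', (x (some (i, j)) - x (some (i, j'))) ^ 2) := by
  rw [lap, Top.lap_quad _ (wm_symm b), Fintype.sum_option]
  simp only [Fintype.sum_option, Fintype.sum_prod_type]
  have h1 : ∀ (i : ι) (j : κ), ∑ i', ∑ j', wm ι κ b (some (i, j)) (some (i', j')) *
      (x (some (i, j)) - x (some (i', j'))) ^ 2
      = ∑ j', (x (some (i, j)) - x (some (i, j'))) ^ 2 := by
    intro i j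
    rw [Finset.sum_eq_single i]
    · refine Finset.sum_congr rfl fun j' _ => ?_
      by_cases hj : j' = j
      · subst hj
        simp [wm]
      · simp [wm, Ne.symm hj]
    · intro i' _ hi
      apply Finset.sum_eq_zero
      intro j' _
      simp [wm, Ne.symm hi]
    · simp
  simp_rw [h1]
  have e1 : ∑ i, ∑ j, wm ι κ b none (some (i, j)) * (x none - x (some (i, j))) ^ 2
      = ∑ i, ∑ j, b j * (x none - x (some (i, j))) ^ 2 := rfl
  have e2 : ∑ i, ∑ j, (wm ι κ b (some (i, j)) none * (x (some (i, j)) - x none) ^ 2 +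
      ∑ j', (x (some (i, j)) - x (some (i, j'))) ^ 2)
      = ∑ i, ∑ j, b j * (x none - x (some (i, j))) ^ 2
        + ∑ i, ∑ j, ∑ j', (x (some (i, j)) - x (some (i, j'))) ^ 2 := by
    rw [← Finset.sum_add_distrib]
    refine Finset.sum_congr rfl fun i _ => ?_
    rw [← Finset.sum_add_distrib]
    refine Finset.sum_congr rfl fun j _ => ?_
    have : wm ι κ b (some (i, j)) none = b j := rfl
    rw [this]
    ring
  have e3 : wm ι κ b none none = 0 := rfl
  rw [e1, e2, e3, Finset.sum_add_distrib, ← Finset.mul_sum]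
  ring

end

/-- the estimate inside one clique -/
lemma clique_bound {κ : Type} [Fintype κ] [DecidableEq κ] (m : ℝ) (hm : 1 ≤ m) (S : Finset κ)
    (w : ℝ) (hw : 1 ≤ w) (hcard : (S.card : ℝ) = m ^ 2)
    (hd : (Fintype.card κ : ℝ) = m ^ 2 * w) (z : κ → ℝ) :
    |∑ j, (if j ∈ S then w else 0) * z j ^ 2 - ∑ j, z j ^ 2|
      ≤ (1 / m + 1 / m ^ 2) * (∑ j, z j ^ 2 + 1 / 2 * ∑ j, ∑ j', (z j - z j') ^ 2) := by
  have hm0 : 0 < m := by linarith
  have hd0 : 0 < m ^ 2 * w := by positivity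
  set d : ℝ := m ^ 2 * w with hdd
  set c : ℝ := (∑ j, z j) / d with hc
  -- the centred vector
  obtain ⟨y, hy⟩ : ∃ y : κ → ℝ, ∀ j, z j = c + y j := ⟨fun j => z j - c, fun j => by ring⟩
  have hy0 : ∑ j, y j = 0 := by
    have h1 : ∑ j, z j = d * c + ∑ j, y j := by
      simp_rw [hy]
      rw [Finset.sum_add_distrib, Finset.sum_const, Finset.card_univ, nsmul_eq_mul, hd]
    have h2 : d * c = ∑ j, z j := by
      rw [hc]; field_simp
    linarith
  set Y : ℝ := ∑ j, y j ^ 2 with hY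
  set T : ℝ := ∑ j ∈ S, y j with hT
  set R : ℝ := ∑ j ∈ S, y j ^ 2 with hR
  have hYnn : 0 ≤ Y := Finset.sum_nonneg fun _ _ => sq_nonneg _
  have hRY : R ≤ Y := Finset.sum_le_sum_of_subset_of_nonneg (subset_univ _) fun _ _ _ => sq_nonneg _
  have hR0 : 0 ≤ R := Finset.sum_nonneg fun _ _ => sq_nonneg _
  have hTR : T ^ 2 ≤ m ^ 2 * R := by
    have := sq_sum_le_card_mul_sum_sq (s := S) (f := y)
    rwa [hcard] at this
  have e1 : ∑ j, z j ^ 2 = d * c ^ 2 + Y := by
    have : ∀ j, z j ^ 2 = c ^ 2 + 2 * c * y j + y j ^ 2 := fun j => by rw [hy]; ring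
    simp_rw [this]
    rw [Finset.sum_add_distrib, Finset.sum_add_distrib, Finset.sum_const, Finset.card_univ,
      nsmul_eq_mul, hd, ← Finset.mul_sum, hy0]
    ring
  have e2 : ∑ j, (if j ∈ S then w else 0) * z j ^ 2 = d * c ^ 2 + 2 * c * w * T + w * R := by
    have : ∀ j, (if j ∈ S then w else 0) * z j ^ 2
        = if j ∈ S then w * c ^ 2 + 2 * c * w * y j + w * y j ^ 2 else 0 := fun j => by
      rw [hy]
      split_ifs
      · ring
      · ring
    simp_rw [this]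
    rw [Finset.sum_ite_mem, Finset.univ_inter, Finset.sum_add_distrib, Finset.sum_add_distrib,
      Finset.sum_const, nsmul_eq_mul, hcard, ← Finset.mul_sum, ← Finset.mul_sum]
    ring
  have e3 : ∑ j, ∑ j', (z j - z j') ^ 2 = 2 * d * Y := by
    have : ∀ j j', (z j - z j') ^ 2 = y j ^ 2 + y j' ^ 2 - 2 * (y j * y j') := fun j j' => by
      rw [hy, hy]; ring
    simp_rw [this]
    have h1 : ∀ j, ∑ j', (y j ^ 2 + y j' ^ 2 - 2 * (y j * y j')) = d * y j ^ 2 + Y := by
      intro j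
      rw [Finset.sum_sub_distrib, Finset.sum_add_distrib, Finset.sum_const, Finset.card_univ,
        nsmul_eq_mul, hd, ← Finset.mul_sum, ← Finset.mul_sum, hy0]
      ring
    simp_rw [h1]
    rw [Finset.sum_add_distrib, Finset.sum_const, Finset.card_univ, nsmul_eq_mul, hd,
      ← Finset.mul_sum]
    ring
  rw [e1, e2, e3]
  have hm1 : 1 / m * d = m * w := by rw [hdd]; field_simp
  have hm2 : 1 / m ^ 2 * d = w := by rw [hdd]; field_simp
  have key : |2 * c * w * T| ≤ m * w * c ^ 2 + m * w * Y := by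
    have h1 : |2 * c * w * T| = 2 * |c| * w * |T| := by
      rw [abs_mul, abs_mul, abs_mul, abs_of_pos (by norm_num : (0:ℝ) < 2),
        abs_of_pos (by linarith : (0:ℝ) < w)]
    have h2 : |T| ^ 2 ≤ m ^ 2 * Y := by
      rw [sq_abs]
      exact hTR.trans (mul_le_mul_of_nonneg_left hRY (by positivity))
    have h3 : 2 * |c| * |T| ≤ m * c ^ 2 + |T| ^ 2 / m := by
      have : 0 ≤ (m * |c| - |T|) ^ 2 / m := by positivity
      have h4 : (m * |c| - |T|) ^ 2 / m = m * c ^ 2 + |T| ^ 2 / m - 2 * |c| * |T| := by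
        rw [← sq_abs c]
        field_simp
        ring
      linarith
    have h4 : |T| ^ 2 / m ≤ m * Y := by
      rw [div_le_iff₀ hm0]
      nlinarith
    rw [h1]
    have : 2 * |c| * |T| ≤ m * c ^ 2 + m * Y := by linarith
    nlinarith
  have hRHS : (1 / m + 1 / m ^ 2) * (d * c ^ 2 + Y + 1 / 2 * (2 * d * Y))
      = m * w * c ^ 2 + w * c ^ 2 + (1 / m + 1 / m ^ 2) * Y + m * w * Y + w * Y := by
    have : (1 / m + 1 / m ^ 2) * (d * c ^ 2 + Y + 1 / 2 * (2 * d * Y))
      = (1 / m * d) * c ^ 2 + (1 / m ^ 2 * d) * c ^ 2 + (1 / m + 1 / m ^ 2) * Y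
        + (1 / m * d) * Y + (1 / m ^ 2 * d) * Y := by ring
    rw [this, hm1, hm2]
  rw [hRHS]
  have hpos : 0 ≤ (1 / m + 1 / m ^ 2) * Y := by positivity
  have hwc : 0 ≤ w * c ^ 2 := by positivity
  have hwR : w * R ≤ w * Y := mul_le_mul_of_nonneg_left hRY (by linarith)
  have hwR0 : 0 ≤ w * R := by positivity
  have hYw : Y ≤ w * Y := by nlinarith
  have h6 : |w * R - Y| ≤ w * Y := by
    rw [abs_le]
    constructor <;> linarith
  have h7 : d * c ^ 2 + 2 * c * w * T + w * R - (d * c ^ 2 + Y) = 2 * c * w * T + (w * R - Y) := by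
    ring
  rw [h7]
  refine (abs_add_le _ _).trans ?_
  linarith

/-- hub weights of the sparsifier -/
noncomputable def hub (m : ℕ) : Fin (m ^ 4) → ℝ := fun j => if j.val < m ^ 2 then (m : ℝ) ^ 2 else 0

lemma hub_card (m : ℕ) (hm : 1 ≤ m) :
    (univ.filter (fun j : Fin (m ^ 4) => j.val < m ^ 2)).card = m ^ 2 := by
  have h : m ^ 2 ≤ m ^ 4 := Nat.pow_le_pow_right hm (by norm_num)
  rw [Fin.card_filter_val_lt]
  exact min_eq_right h

lemma herm (m : ℕ) (b : Fin (m ^ 4) → ℝ) :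
    (wm (Fin (m ^ 4)) (Fin (m ^ 4)) b).IsHermitian := by
  rw [Matrix.IsHermitian, Matrix.conjTranspose_eq_transpose_of_trivial]
  ext u v
  rw [Matrix.transpose_apply]
  exact wm_symm b v u

lemma card_m4 (m : ℕ) : (Fintype.card (Fin (m ^ 4)) : ℝ) = (m : ℝ) ^ 4 := by
  rw [Fintype.card_fin]; push_cast; ring

lemma dot_option (m : ℕ) (x : Option (Fin (m ^ 4) × Fin (m ^ 4)) → ℝ) :
    x ⬝ᵥ x = x none ^ 2 + ∑ i, ∑ j, x (some (i, j)) ^ 2 := by
  rw [dotProduct, Fintype.sum_option, Fintype.sum_prod_type]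
  simp only [← sq]

lemma sparsifier (m : ℕ) (hm : 2 ≤ m) : IsEdgeDeletingSparsifier
    (windmill (Fin (m ^ 4)) (Fin (m ^ 4))) (1 / (m : ℝ) + 1 / (m : ℝ) ^ 2)
    (wm (Fin (m ^ 4)) (Fin (m ^ 4)) (hub m)) := by
  have hm1 : (2 : ℝ) ≤ m := by exact_mod_cast hm
  have hlt : m ^ 2 < m ^ 4 := Nat.pow_lt_pow_right (by omega) (by norm_num)
  have hpos4 : 0 < m ^ 4 := by positivity
  -- the main estimate
  have key : ∀ x : Option (Fin (m ^ 4) × Fin (m ^ 4)) → ℝ,
      |x ⬝ᵥ (lap (wm (Fin (m ^ 4)) (Fin (m ^ 4)) (hub m)) *ᵥ x)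
        - x ⬝ᵥ (lap ((windmill (Fin (m ^ 4)) (Fin (m ^ 4))).adjMatrix ℝ) *ᵥ x)|
      ≤ (1 / (m : ℝ) + 1 / (m : ℝ) ^ 2) *
        (x ⬝ᵥ (lap ((windmill (Fin (m ^ 4)) (Fin (m ^ 4))).adjMatrix ℝ) *ᵥ x)) := by
    intro x
    rw [wm_one, lapform, lapform, ← Finset.sum_sub_distrib, Finset.mul_sum]
    refine (Finset.abs_sum_le_sum_abs _ _).trans (Finset.sum_le_sum fun i _ => ?_)
    have h := clique_bound (κ := Fin (m ^ 4)) (m : ℝ) (by linarith)
      (univ.filter (fun j : Fin (m ^ 4) => j.val < m ^ 2)) ((m : ℝ) ^ 2) (by nlinarith)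
      (by rw [hub_card m (by omega)]; push_cast; ring) (by rw [card_m4]; ring)
      (fun j => x none - x (some (i, j)))
    have e1 : ∀ j : Fin (m ^ 4), (if j ∈ univ.filter (fun j : Fin (m ^ 4) => j.val < m ^ 2)
        then (m : ℝ) ^ 2 else 0) = hub m j := by
      intro j
      simp [hub]
    have e2 : ∀ j j' : Fin (m ^ 4), (x none - x (some (i, j)) - (x none - x (some (i, j')))) ^ 2
        = (x (some (i, j)) - x (some (i, j'))) ^ 2 := fun j j' => by ring
    simp only [e1, e2] at h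
    simp only [one_mul]
    refine le_trans (le_of_eq ?_) h
    congr 1
    ring
  refine ⟨wm_symm _, ?_, ?_, ?_, ?_, ?_⟩
  · intro u v
    rcases u with _ | u <;> rcases v with _ | v
    · simp [wm]
    · simp only [wm, Matrix.of_apply, hub]
      split_ifs <;> positivity
    · simp only [wm, Matrix.of_apply, hub]
      split_ifs <;> positivity
    · simp only [wm, Matrix.of_apply]
      split_ifs <;> norm_num
  · intro u v h
    rcases u with _ | u <;> rcases v with _ | v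
    · exact absurd rfl h
    · exact trivial
    · exact trivial
    · by_contra hcon
      apply h
      have hcon' : ¬ (u.1 = v.1 ∧ u.2 ≠ v.2) := hcon
      simp only [wm, Matrix.of_apply]
      rw [if_neg hcon']
  · refine ⟨none, some (⟨0, hpos4⟩, ⟨m ^ 2, hlt⟩), trivial, ?_⟩
    simp [wm, hub]
  · intro x
    have := (abs_le.mp (key x)).1
    linarith
  · intro x
    have := (abs_le.mp (key x)).2
    linarith

lemma upper_G (m : ℕ) : lambda1 ((windmill (Fin (m ^ 4)) (Fin (m ^ 4))).adjMatrix ℝ)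
    ≤ 2 * (m : ℝ) ^ 4 := by
  rw [wm_one]
  apply Top.sSup_le_of (herm m _)
  intro x
  rw [quadform, dot_option]
  set d : ℝ := (m : ℝ) ^ 4 with hd
  have hd0 : 0 ≤ d := by positivity
  have hcard : (Fintype.card (Fin (m ^ 4)) : ℝ) = d := card_m4 m
  have h1 : ∀ i : Fin (m ^ 4), (∑ j, x (some (i, j))) ^ 2 ≤ d * ∑ j, x (some (i, j)) ^ 2 := by
    intro i
    have := sq_sum_le_card_mul_sum_sq (s := (univ : Finset (Fin (m ^ 4))))
      (f := fun j => x (some (i, j)))
    rwa [Finset.card_univ, hcard] at this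
  set Q : ℝ := ∑ i, ∑ j, x (some (i, j)) ^ 2 with hQ
  have hQ0 : 0 ≤ Q := Finset.sum_nonneg fun _ _ => Finset.sum_nonneg fun _ _ => sq_nonneg _
  set T : ℝ := ∑ i : Fin (m ^ 4), ∑ j : Fin (m ^ 4), 1 * x (some (i, j)) with hT
  have h2 : T ^ 2 ≤ d ^ 2 * Q := by
    have a1 := sq_sum_le_card_mul_sum_sq (s := (univ : Finset (Fin (m ^ 4))))
      (f := fun i => ∑ j, 1 * x (some (i, j)))
    rw [Finset.card_univ, hcard] at a1
    have a2 : ∑ i : Fin (m ^ 4), (∑ j : Fin (m ^ 4), 1 * x (some (i, j))) ^ 2 ≤ d * Q := by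
      rw [hQ, Finset.mul_sum]
      refine Finset.sum_le_sum fun i _ => ?_
      simp only [one_mul]
      exact h1 i
    calc T ^ 2 ≤ d * ∑ i : Fin (m ^ 4), (∑ j : Fin (m ^ 4), 1 * x (some (i, j))) ^ 2 := a1
      _ ≤ d * (d * Q) := mul_le_mul_of_nonneg_left a2 hd0
      _ = d ^ 2 * Q := by ring
  have h3 : 2 * (x none * T) ≤ d * x none ^ 2 + d * Q := by
    by_cases hdz : d = 0
    · have : T = 0 := by
        have : T ^ 2 ≤ 0 := by rw [hdz] at h2; simpa using h2
        exact pow_eq_zero_iff two_ne_zero |>.mp (le_antisymm this (sq_nonneg _))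
      rw [this, hdz]; simp
    · have hdp : 0 < d := lt_of_le_of_ne hd0 (Ne.symm hdz)
      have a : 0 ≤ (d * x none - T) ^ 2 / d := by positivity
      have b : (d * x none - T) ^ 2 / d = d * x none ^ 2 + T ^ 2 / d - 2 * (x none * T) := by
        field_simp
        ring
      have c : T ^ 2 / d ≤ d * Q := by
        rw [div_le_iff₀ hdp]
        nlinarith
      linarith
  have h4 : ∑ i : Fin (m ^ 4), ((∑ j, x (some (i, j))) ^ 2 - ∑ j, x (some (i, j)) ^ 2) ≤ d * Q := by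
    rw [hQ, Finset.mul_sum]
    refine Finset.sum_le_sum fun i _ => ?_
    have : 0 ≤ ∑ j, x (some (i, j)) ^ 2 := Finset.sum_nonneg fun _ _ => sq_nonneg _
    have := h1 i
    linarith
  nlinarith [sq_nonneg (x none)]

lemma lower_G (m : ℕ) (hm : 2 ≤ m) :
    0 < lambda1 ((windmill (Fin (m ^ 4)) (Fin (m ^ 4))).adjMatrix ℝ) := by
  rw [wm_one]
  have h := Top.quad_le (herm m (fun _ => 1)) (fun _ => 1)
  rw [quadform, dot_option] at h
  have hcard : (Fintype.card (Fin (m ^ 4)) : ℝ) = (m : ℝ) ^ 4 := card_m4 m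
  have hm1 : (2 : ℝ) ≤ m := by exact_mod_cast hm
  have hd1 : (1 : ℝ) ≤ (m : ℝ) ^ 4 := one_le_pow₀ (by linarith)
  simp only [one_pow, mul_one, Finset.sum_const, Finset.card_univ, nsmul_eq_mul, hcard] at h
  by_contra hcon
  have h5 : lambda1 (wm (Fin (m ^ 4)) (Fin (m ^ 4)) (fun _ => 1)) ≤ 0 := not_lt.mp hcon
  have h6 : sSup (Top.evs (wm (Fin (m ^ 4)) (Fin (m ^ 4)) (fun _ => 1))) ≤ 0 := h5
  set d : ℝ := (m : ℝ) ^ 4
  have h7 : sSup (Top.evs (wm (Fin (m ^ 4)) (Fin (m ^ 4)) (fun _ => 1))) * (1 + d * d) ≤ 0 :=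
    mul_nonpos_of_nonpos_of_nonneg h6 (by positivity)
  nlinarith

lemma lower_H (m : ℕ) (hm : 2 ≤ m) :
    (m : ℝ) ^ 5 ≤ lambda1 (wm (Fin (m ^ 4)) (Fin (m ^ 4)) (hub m)) := by
  have hm1 : (2 : ℝ) ≤ m := by exact_mod_cast hm
  have hm0 : (0 : ℝ) < m := by linarith
  let x : Option (Fin (m ^ 4) × Fin (m ^ 4)) → ℝ := fun u => match u with
    | none => (m : ℝ) ^ 3
    | some p => if p.2.val < m ^ 2 then 1 else 0
  have h := Top.quad_le (herm m (hub m)) x
  rw [quadform, dot_option] at h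
  have xn : x none = (m : ℝ) ^ 3 := rfl
  have e1 : ∀ i : Fin (m ^ 4), ∑ j, x (some (i, j)) = (m : ℝ) ^ 2 := by
    intro i
    have : ∀ j : Fin (m ^ 4), x (some (i, j)) = if j.val < m ^ 2 then (1 : ℝ) else 0 := fun j => rfl
    simp_rw [this]
    rw [← Finset.sum_filter, Finset.sum_const, hub_card m (by omega)]
    simp
  have e2 : ∀ i : Fin (m ^ 4), ∑ j, x (some (i, j)) ^ 2 = (m : ℝ) ^ 2 := by
    intro i
    rw [← e1 i]
    refine Finset.sum_congr rfl fun j _ => ?_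
    have : x (some (i, j)) = if j.val < m ^ 2 then (1 : ℝ) else 0 := rfl
    rw [this]
    split_ifs <;> norm_num
  have e3 : ∀ i : Fin (m ^ 4), ∑ j, hub m j * x (some (i, j)) = (m : ℝ) ^ 4 := by
    intro i
    have : ∀ j : Fin (m ^ 4), hub m j * x (some (i, j))
        = if j.val < m ^ 2 then (m : ℝ) ^ 2 else 0 := fun j => by
      have : x (some (i, j)) = if j.val < m ^ 2 then (1 : ℝ) else 0 := rfl
      rw [this, hub]
      split_ifs <;> ring
    simp_rw [this]
    rw [← Finset.sum_filter, Finset.sum_const, hub_card m (by omega)]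
    rw [nsmul_eq_mul]
    push_cast
    ring
  simp only [e1, e2, e3, xn, Finset.sum_const, Finset.card_univ, nsmul_eq_mul, card_m4] at h
  have h8 : (m : ℝ) ^ 5 * (2 * (m : ℝ) ^ 6)
      ≤ sSup (Top.evs (wm (Fin (m ^ 4)) (Fin (m ^ 4)) (hub m))) * (2 * (m : ℝ) ^ 6) := by
    have h9 : 0 ≤ (m : ℝ) ^ 4 * (((m : ℝ) ^ 2) ^ 2 - (m : ℝ) ^ 2) := by
      have : (m : ℝ) ^ 2 ≤ ((m : ℝ) ^ 2) ^ 2 :=
        le_self_pow₀ (one_le_pow₀ (by linarith)) two_ne_zero
      have h10 : 0 ≤ ((m : ℝ) ^ 2) ^ 2 - (m : ℝ) ^ 2 := by linarith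
      positivity
    calc (m : ℝ) ^ 5 * (2 * (m : ℝ) ^ 6)
        = 2 * ((m : ℝ) ^ 3 * ((m : ℝ) ^ 4 * (m : ℝ) ^ 4)) := by ring
      _ ≤ 2 * ((m : ℝ) ^ 3 * ((m : ℝ) ^ 4 * (m : ℝ) ^ 4))
          + (m : ℝ) ^ 4 * (((m : ℝ) ^ 2) ^ 2 - (m : ℝ) ^ 2) := by linarith
      _ ≤ _ := h
      _ = _ := by ring
  exact le_of_mul_le_mul_right h8 (by positivity)

/-- **Unbounded distortion under edge-deleting sparsification.** -/
theorem result : ∃ (V : ℕ → Type) (_ : ∀ n, Fintype (V n)) (_ : ∀ n, DecidableEq (V n))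
    (G : ∀ n, SimpleGraph (V n)) (_ : ∀ n, DecidableRel (G n).Adj) (ε : ℕ → ℝ)
    (W : ∀ n, Matrix (V n) (V n) ℝ),
    (∀ n, (G n).Connected) ∧ (∀ n, 0 < ε n ∧ ε n < 1) ∧
    (∀ n, IsEdgeDeletingSparsifier (G n) (ε n) (W n)) ∧
    Tendsto (fun n => |lambda1 (W n) - lambda1 ((G n).adjMatrix ℝ)|
      / (ε n * lambda1 ((G n).adjMatrix ℝ))) atTop atTop ∧
    Tendsto ε atTop (nhds 0) := by
  refine ⟨fun n => Option (Fin ((n + 3) ^ 4) × Fin ((n + 3) ^ 4)), fun n => inferInstance,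
    fun n => inferInstance, fun n => windmill _ _, fun n => inferInstance,
    fun n => 1 / ((n + 3 : ℕ) : ℝ) + 1 / ((n + 3 : ℕ) : ℝ) ^ 2,
    fun n => wm _ _ (hub (n + 3)), ?_, ?_, fun n => sparsifier (n + 3) (by omega), ?_, ?_⟩
  · intro n
    rw [SimpleGraph.connected_iff_exists_forall_reachable]
    refine ⟨none, fun w => ?_⟩
    rcases w with _ | w
    · exact SimpleGraph.Reachable.refl _
    · exact SimpleGraph.Adj.reachable (show (windmill _ _).Adj none (some w) from trivial)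
  · intro n
    have h3 : (3 : ℝ) ≤ ((n + 3 : ℕ) : ℝ) := by exact_mod_cast (by omega : 3 ≤ n + 3)
    have h0 : (0 : ℝ) < ((n + 3 : ℕ) : ℝ) := by linarith
    refine ⟨by positivity, ?_⟩
    have h1 : 1 / ((n + 3 : ℕ) : ℝ) ≤ 1 / 3 := one_div_le_one_div_of_le (by norm_num) h3
    have h2 : 1 / ((n + 3 : ℕ) : ℝ) ^ 2 ≤ 1 / 9 :=
      one_div_le_one_div_of_le (by norm_num) (by nlinarith)
    linarith
  · refine tendsto_atTop_mono (f := fun n : ℕ => ((n : ℝ) + 1)) ?_
      (tendsto_atTop_add_const_right _ _ tendsto_natCast_atTop_atTop)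
    intro n
    set m : ℕ := n + 3 with hmdef
    have hm : (m : ℝ) = n + 3 := by rw [hmdef]; push_cast; ring
    have hn0 : (0 : ℝ) ≤ n := Nat.cast_nonneg n
    have h3 : (3 : ℝ) ≤ m := by rw [hm]; linarith
    have h0 : (0 : ℝ) < m := by linarith
    have u := upper_G m
    have l := lower_G m (by omega)
    have lh := lower_H m (by omega)
    set a := lambda1 ((windmill (Fin (m ^ 4)) (Fin (m ^ 4))).adjMatrix ℝ) with ha
    set b := lambda1 (wm (Fin (m ^ 4)) (Fin (m ^ 4)) (hub m)) with hb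
    have he : 0 < 1 / (m : ℝ) + 1 / (m : ℝ) ^ 2 := by positivity
    show (n : ℝ) + 1 ≤ |b - a| / ((1 / (m : ℝ) + 1 / (m : ℝ) ^ 2) * a)
    rw [le_div_iff₀ (mul_pos he l)]
    have h5 : (m : ℝ) ^ 5 - 2 * (m : ℝ) ^ 4 ≤ |b - a| := by
      refine le_trans ?_ (le_abs_self _)
      linarith
    have h6 : (1 / (m : ℝ) + 1 / (m : ℝ) ^ 2) * a ≤ 2 * (m : ℝ) ^ 3 + 2 * (m : ℝ) ^ 2 := by
      calc (1 / (m : ℝ) + 1 / (m : ℝ) ^ 2) * a
          ≤ (1 / (m : ℝ) + 1 / (m : ℝ) ^ 2) * (2 * (m : ℝ) ^ 4) :=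
            mul_le_mul_of_nonneg_left u he.le
        _ = 2 * (m : ℝ) ^ 3 + 2 * (m : ℝ) ^ 2 := by field_simp
    have hn1 : (n : ℝ) + 1 = m - 2 := by rw [hm]; ring
    rw [hn1]
    have h7 : ((m : ℝ) - 2) * ((1 / (m : ℝ) + 1 / (m : ℝ) ^ 2) * a)
        ≤ ((m : ℝ) - 2) * (2 * (m : ℝ) ^ 3 + 2 * (m : ℝ) ^ 2) :=
      mul_le_mul_of_nonneg_left h6 (by linarith)
    have h8 : ((m : ℝ) - 2) * (2 * (m : ℝ) ^ 3 + 2 * (m : ℝ) ^ 2)
        ≤ (m : ℝ) ^ 5 - 2 * (m : ℝ) ^ 4 := by
      have h9 : 0 ≤ ((m : ℝ) - 2) * (m : ℝ) ^ 2 * ((m : ℝ) ^ 2 - 2 * m - 2) := by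
        apply mul_nonneg
        · apply mul_nonneg
          · linarith
          · positivity
        · nlinarith
      nlinarith
    linarith
  · have h1 : Tendsto (fun n : ℕ => 1 / ((n + 3 : ℕ) : ℝ)) atTop (nhds 0) := by
      have := tendsto_one_div_add_atTop_nhds_zero_nat (𝕜 := ℝ)
      have h2 := this.comp (tendsto_add_atTop_nat 2)
      refine h2.congr fun n => ?_
      simp only [Function.comp_apply]
      push_cast
      ring
    have h2 : Tendsto (fun n : ℕ => (1 / ((n + 3 : ℕ) : ℝ)) + (1 / ((n + 3 : ℕ) : ℝ)) ^ 2)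
        atTop (nhds (0 + 0 ^ 2)) := h1.add (h1.pow 2)
    have h3 : (0 : ℝ) + 0 ^ 2 = 0 := by norm_num
    rw [h3] at h2
    refine h2.congr fun n => ?_
    rw [div_pow, one_pow]

end Pool.Agent.Results.MP_7ca01f_co.UnboundedDistortion
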